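import Mathlib

/-! Statements of the project PM: all Laguerre inequalities hold at 82 percent of all points. -/

set_option autoImplicit false

open Complex Filter Topology MeasureTheory

namespace Pool.Agent.Helper75.PM

noncomputable section

/-! ### the quadratic form of the twisted second moment -/

/-- the quadratic form -/
def QF (N : ℕ) (a : ℕ → ℝ) (L : ℝ) : ℝ :=
  ∑ h ∈ Finset.Icc 1 N, ∑ l ∈ Finset.Icc 1 N, a h * a l *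
    (1 / (Nat.lcm h l : ℝ) * (L + Real.log ((Nat.gcd h l : ℝ) ^ 2 / ((h : ℝ) * l))))

/-- `μ(n)² / φ(n)` -/
def w (n : ℕ) : ℝ := ((ArithmeticFunction.moebius n : ℤ) : ℝ) ^ 2 / (Nat.totient n : ℝ)

/-- `∑_{n ≤ N} μ(n)² / φ(n)` -/
def SS (N : ℕ) : ℝ := ∑ n ∈ Finset.Icc 1 N, w n

/-- `∑_{p | n} log p / (p - 1)` -/
def kp (n : ℕ) : ℝ := ∑ p ∈ n.primeFactors, Real.log p / ((p : ℝ) - 1)

/-- SA. Selberg's choice and the diagonal form: put `c = 1 / SS N`,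
`a h = μ(h) (h / φ(h)) c ∑_{m ≤ N / h, (m, h) = 1} w m`. -/
def S_diag : Prop := ∀ N : ℕ, 1 ≤ N → ∃ a : ℕ → ℝ, a 1 = 1 ∧ (∀ n, |a n| ≤ 1) ∧
  ∀ L : ℝ, QF N a L = (L * SS N + 2 * ∑ d ∈ Finset.Icc 1 N, w d * kp d +
    2 * ∑ m ∈ Finset.Icc 1 N, w m * Real.log m) / SS N ^ 2

/-- SB. the three sums -/
def S_sums : Prop := (∀ N : ℕ, 1 ≤ N → Real.log N ≤ SS N) ∧
  ∃ C : ℝ, 0 ≤ C ∧ (∀ N : ℕ, 1 ≤ N → ∑ d ∈ Finset.Icc 1 N, w d * kp d ≤ C * SS N) ∧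
    ∀ N : ℕ, 1 ≤ N → 2 * ∑ m ∈ Finset.Icc 1 N, w m * Real.log m ≤ (Real.log N + C) * SS N

/-- the mollifier (done by the assembler from SA and SB) -/
def S_sel : Prop := ∃ C : ℝ, 0 ≤ C ∧ ∀ N : ℕ, 2 ≤ N → ∃ a : ℕ → ℝ, a 1 = 1 ∧ (∀ n, |a n| ≤ 1) ∧
  ∀ L : ℝ, 0 ≤ L → QF N a L ≤ (L + C) / Real.log N + 1

/-! ### the mollified second moment -/

/-- the Gamma density with mean `(1 + 1/k) T` and relative width `1/√k` -/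
def weight (k : ℕ) (T t : ℝ) : ℝ :=
  (k / T) ^ (k + 1) * t ^ k * Real.exp (-(k / T * t)) / (k.factorial : ℝ)

/-- the twisted second moment (library theorem, with `2 log` of the gcd as in the library) -/
def S_tsm : Prop := ∀ θ : ℝ, θ < 14 / 27 → ∃ η : ℝ, 0 < η ∧ ∀ᶠ T : ℝ in atTop, ∀ k : ℕ,
    Real.log T ^ 2 ≤ k → (k : ℝ) ≤ 4 * Real.log T ^ 2 → ∀ N : ℕ, (N : ℝ) ≤ T ^ θ →
    ∀ a : ℕ → ℂ, (∀ n, ‖a n‖ ≤ 1) →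
    ‖((∫ t in Set.Ioi (0 : ℝ), weight k T t * ‖riemannZeta (1 / 2 + t * I)‖ ^ 2 *
        ‖∑ n ∈ Finset.Icc 1 N, a n * (n : ℂ) ^ (-(1 / 2 + t * I))‖ ^ 2 : ℝ) : ℂ) -
      ∑ h ∈ Finset.Icc 1 N, ∑ l ∈ Finset.Icc 1 N, a h * (starRingEnd ℂ) (a l) *
        ((1 / (Nat.lcm h l : ℝ) *
          (Real.log (T / (2 * Real.pi * k) * (Nat.gcd h l : ℝ) ^ 2 / ((h : ℝ) * l)) +
            ((harmonic k : ℝ) + Real.eulerMascheroniConstant)) : ℝ) : ℂ)‖ ≤ T ^ (-η)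

/-- the Dirichlet polynomial -/
def Dp (N : ℕ) (a : ℕ → ℝ) (s : ℂ) : ℂ := ∑ n ∈ Finset.Icc 1 N, (a n : ℂ) * (n : ℂ) ^ (-s)

/-- `|ζ ψ|` on the critical line -/
def hh (N : ℕ) (a : ℕ → ℝ) (t : ℝ) : ℝ := ‖riemannZeta (1 / 2 + t * I)‖ * ‖Dp N a (1 / 2 + t * I)‖

/-- MA. windows: `S_tsm → S_sel → S_win` -/
def S_win : Prop := ∀ α β ε : ℝ, 0 < α → α < β → 0 < ε → ∀ᶠ T : ℝ in atTop,
  ∃ (N : ℕ) (a : ℕ → ℝ) (k : ℕ), 1 ≤ N ∧ (N : ℝ) ≤ T ∧ a 1 = 1 ∧ (∀ n, |a n| ≤ 1) ∧ Real.log T ≤ k ∧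
    ∀ τ : ℝ, α * T ≤ τ → τ ≤ β * T →
      IntegrableOn (fun t => weight k τ t * hh N a t ^ 2) (Set.Ioi 0) ∧
      ∫ t in Set.Ioi (0 : ℝ), weight k τ t * hh N a t ^ 2 ≤ 41 / 14 + ε

/-- MB. averages of the Gamma densities (real analysis, Tonelli): for every `t > 0` the integral of
`weight k τ t` over `τ > 0` is 1 for `k ≥ 1`, and the part outside `[(1-η) t, (1+η) t]` is at most `C(η) / k`. -/
def S_avg : Prop := ∀ α β δ κ : ℝ, 0 < α → α < β → 0 < δ → δ < 1 → 0 < κ → ∃ K : ℕ, ∀ k : ℕ, K ≤ k →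
  ∀ (T M : ℝ) (g : ℝ → ℝ), 0 < T → 0 ≤ M → Continuous g → (∀ t, 0 ≤ g t) →
    (∀ τ : ℝ, α * (1 - δ) * T ≤ τ → τ ≤ β * (1 + δ) * T →
      ∫⁻ t in Set.Ioi (0 : ℝ), ENNReal.ofReal (weight k τ t * g t) ≤ ENNReal.ofReal M) →
    ∫⁻ t in Set.Icc (α * T) (β * T), ENNReal.ofReal (g t) ≤
      ENNReal.ofReal ((1 + κ) * M * ((β * (1 + δ) - α * (1 - δ)) * T))

/-- MC. the mollified second moment: `S_win → S_avg → S_mom` -/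
def S_mom : Prop := ∀ α β ε : ℝ, 0 < α → α < β → 0 < ε → ∀ᶠ T : ℝ in atTop,
  ∃ (N : ℕ) (a : ℕ → ℝ), 1 ≤ N ∧ (N : ℝ) ≤ T ∧ a 1 = 1 ∧ (∀ n, |a n| ≤ 1) ∧
    ∫ t in (α * T)..(β * T), hh N a t ^ 2 ≤ (41 / 14 + ε) * ((β - α) * T)

/-! ### Poisson-Jensen -/

/-- `cot (θ/2)` -/
def ct (θ : ℝ) : ℝ := Real.cos (θ / 2) / Real.sin (θ / 2)

/-- PJ. the Poisson-Jensen inequality in the half plane with zeros: divide `F` by the factors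
`(s - ρ) / (s - (1 - conj ρ))` and use the proof of `poissonF`
(`Pool/Graph/R_seed8/H983R4/GL/F1.lean`, there for entire `F`; only `Re s > 0` is needed). -/
def S_pj : Prop := ∀ (F : ℂ → ℂ) (A B : ℝ), (∀ s : ℂ, 0 < s.re → DifferentiableAt ℂ F s) → 0 ≤ B →
  (∀ s : ℂ, 1 / 2 ≤ s.re → ‖F s‖ ≤ Real.exp A * (‖s‖ + 1) ^ B) →
  ∀ Z : Finset ℂ, (∀ ρ ∈ Z, 1 / 2 < ρ.re ∧ F ρ = 0) →
  ∀ a t : ℝ, 0 < a → F (1 / 2 + a + t * I) ≠ 0 →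
    Real.log ‖F (1 / 2 + a + t * I)‖ +
      ∑ ρ ∈ Z, Real.log (‖1 / 2 + a + t * I - (1 - starRingEnd ℂ ρ)‖ / ‖1 / 2 + a + t * I - ρ‖) ≤
    (2 * Real.pi)⁻¹ * ∫ θ in (0 : ℝ)..2 * Real.pi, Real.posLog ‖F (1 / 2 + ((t + a * ct θ : ℝ) : ℂ) * I)‖

/-- SI. shifts (real analysis: Fubini, and the crude bound where `|ct θ| > δ T / a`) -/
def S_int : Prop := ∀ a α β δ κ B : ℝ, 0 < a → 0 < α → α < β → 0 < δ → 0 < κ → 0 ≤ B →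
  ∀ᶠ T : ℝ in atTop, ∀ g : ℝ → ℝ, Continuous g → (∀ x, 0 ≤ g x) →
    (∀ x, g x ≤ B * (Real.log T + Real.log (2 + |x|))) →
    IntervalIntegrable (fun t => (2 * Real.pi)⁻¹ * ∫ θ in (0 : ℝ)..2 * Real.pi, g (t + a * ct θ)) volume
      (α * T) (β * T) ∧
    ∫ t in (α * T)..(β * T), ((2 * Real.pi)⁻¹ * ∫ θ in (0 : ℝ)..2 * Real.pi, g (t + a * ct θ)) ≤
      (∫ x in ((α - δ) * T)..((β + δ) * T), g x) + κ * T

/-- GR. the integral of the Green function of one zero; use `log (x / y) ≥ (x - y) / x` and arctan -/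
def S_gr : Prop := ∀ a κ : ℝ, 1 / 2 < a → 0 < κ → ∃ H : ℝ, 0 < H ∧ ∀ (ρ : ℂ) (A B : ℝ),
  1 / 2 < ρ.re → ρ.re ≤ 1 → A + H ≤ ρ.im → ρ.im + H ≤ B →
    IntervalIntegrable (fun t : ℝ => Real.log (‖1 / 2 + a + t * I - (1 - starRingEnd ℂ ρ)‖ /
      ‖1 / 2 + a + t * I - ρ‖)) volume A B ∧
    (2 * Real.pi * a / (a + 1 / 2) - κ) * (ρ.re - 1 / 2) ≤
      ∫ t in A..B, Real.log (‖1 / 2 + a + t * I - (1 - starRingEnd ℂ ρ)‖ / ‖1 / 2 + a + t * I - ρ‖)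

/-- the function to which the inequality is applied -/
def FF (N : ℕ) (a : ℕ → ℝ) (s : ℂ) : ℂ := riemannZeta₁ s / (s + 1) * Dp N a s

/-- SF. properties of this function -/
def S_F : Prop := ∃ C T₁ : ℝ, 0 < C ∧ ∀ (N : ℕ) (a : ℕ → ℝ), 1 ≤ N → a 1 = 1 → (∀ n, |a n| ≤ 1) →
  (∀ s : ℂ, 0 < s.re → DifferentiableAt ℂ (FF N a) s) ∧
  (∀ s : ℂ, 1 / 2 ≤ s.re → ‖FF N a s‖ ≤ C * N * (‖s‖ + 1) ^ (2 : ℝ)) ∧
  (∀ t : ℝ, ‖FF N a (1 / 2 + t * I)‖ ≤ hh N a t) ∧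
  (∀ ρ : ℂ, riemannZeta ρ = 0 → 1 / 2 < ρ.re → ρ.re < 1 → FF N a ρ = 0) ∧
  ∀ t : ℝ, T₁ ≤ t → FF N a (1 / 2 + (40 : ℝ) + t * I) ≠ 0 ∧
    -(1 / 1000) ≤ Real.log ‖FF N a (1 / 2 + (40 : ℝ) + t * I)‖

/-- JN. concavity of the logarithm, `log⁺ y ≤ (1/2) log (1 + y²)` -/
def S_jen : Prop := ∀ (A B e : ℝ) (h : ℝ → ℝ), A < B → 0 < e → Continuous h → (∀ x, 0 ≤ h x) →
  ∫ x in A..B, Real.posLog (h x / e) ≤
    (B - A) / 2 * Real.log (1 + (∫ x in A..B, h x ^ 2) / (e ^ 2 * (B - A)))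

/-! ### the cone -/

/-- CO1. an entire function of growth less than `exp |z|`, real on the real axis, positive at 1, with all zeros in
`Re z ≤ 0` has nonnegative Taylor coefficients at 0. Copy `Pool/Agent/Helper75/Jen/Approx.lean` (`approx_one`,
`approx`, `Conv`) with the region `Re z ≤ 0` in place of `KK`: for polynomials `(1 - z/v)(1 - z/conj v)` has
coefficients `≥ 0`. -/
def S_cone1 : Prop := ∀ (F : ℂ → ℂ) (C : ℝ), Differentiable ℂ F →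
  (∀ z, F (starRingEnd ℂ z) = starRingEnd ℂ (F z)) → 0 < (F 1).re → (∀ z, F z = 0 → z.re ≤ 0) →
  0 ≤ C → (∀ z, ‖F z‖ ≤ Real.exp (C * (1 + ‖z‖) ^ (3 / 5 : ℝ))) → ∀ n : ℕ, 0 ≤ (iteratedDeriv n F 0).re

end

end Pool.Agent.Helper75.PM
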