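import Pool.Agent.Helper75.PM.StmL

/-! Statements of the project PM, sharp version: every interval `[αT, βT]`, every constant above
`log (41/14) / (2 π) = 0.1710…`. -/

set_option autoImplicit false

open Complex Filter Topology MeasureTheory

namespace Pool.Agent.Helper75.PM

open Pool.Agent.Helper85.LG (Lm G xi)

/-- SF2. for `a` large the function is as close to 1 as we like at `Re s = 1/2 + a` -/
def S_F2 : Prop := ∀ κ : ℝ, 0 < κ → ∃ a₀ : ℝ, ∀ b : ℝ, a₀ ≤ b → ∃ T₁ : ℝ, ∀ (N : ℕ) (a : ℕ → ℝ), 1 ≤ N → a 1 = 1 →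
  (∀ n, |a n| ≤ 1) → ∀ t : ℝ, T₁ ≤ t → FF N a (1 / 2 + b + t * I) ≠ 0 ∧
    -κ ≤ Real.log ‖FF N a (1 / 2 + b + t * I)‖

/-- ME2. (from `S_cone`) the union bound on an arbitrary interval -/
def S_meas2 : Prop := ∀ A B : ℝ, 1 ≤ A → A ≤ B → ∃ Z : Finset ℂ, (∀ ρ ∈ Z, riemannZeta ρ = 0 ∧ 1 / 2 < ρ.re ∧
    ρ.re < 1 ∧ A - 1 ≤ ρ.im ∧ ρ.im ≤ B + 1) ∧
  volume {x : ℝ | A ≤ x ∧ x ≤ B ∧ ∃ m : ℕ, Lm x m < 0} ≤ ENNReal.ofReal (∑ ρ ∈ Z, 2 * (ρ.re - 1 / 2))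

/-- the constant -/
noncomputable def cst : ℝ := Real.log (41 / 14) / (2 * Real.pi)

/-- the sum over the zeros -/
def S_sum2 : Prop := ∀ α β c : ℝ, 0 < α → α < β → cst < c → ∀ᶠ T : ℝ in atTop, ∀ Z : Finset ℂ,
  (∀ ρ ∈ Z, riemannZeta ρ = 0 ∧ 1 / 2 < ρ.re ∧ ρ.re < 1 ∧ α * T - 1 ≤ ρ.im ∧ ρ.im ≤ β * T + 1) →
    ∑ ρ ∈ Z, 2 * (ρ.re - 1 / 2) ≤ c * ((β - α) * T)

/-- the theorem -/
def S_main2 : Prop := ∀ α β c : ℝ, 0 < α → α < β → cst < c → ∀ᶠ T : ℝ in atTop,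
  volume {x : ℝ | α * T ≤ x ∧ x ≤ β * T ∧ ∃ m : ℕ, Lm x m < 0} ≤ ENNReal.ofReal (c * ((β - α) * T))

/-- the theorem, density form -/
def S_dens : Prop := ∀ c : ℝ, cst < c → ∀ᶠ X : ℝ in atTop,
  volume {x : ℝ | 0 ≤ x ∧ x ≤ X ∧ ∃ m : ℕ, Lm x m < 0} ≤ ENNReal.ofReal (c * X)

theorem main2_of (hM : S_meas2) (hS : S_sum2) : S_main2 := by
  intro α β c hα hβ hc
  filter_upwards [hS α β c hα hβ hc, eventually_ge_atTop (1 / α), eventually_gt_atTop (0 : ℝ)] with T hT h1 h0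
  obtain ⟨Z, hZ, hv⟩ := hM (α * T) (β * T) (by rw [div_le_iff₀ hα] at h1; linarith) (by nlinarith)
  exact hv.trans (ENNReal.ofReal_le_ofReal (hT Z hZ))

theorem dens_of (h : S_main2) : S_dens := by
  intro c hc
  have hcst : 0 ≤ cst := div_nonneg (Real.log_nonneg (by norm_num)) (by positivity)
  obtain ⟨c', h1, h2⟩ := exists_between hc
  -- choose α with α ≤ (c - c')
  obtain ⟨α, hα⟩ : ∃ α : ℝ, α = min (1 / 2) (c - c') := ⟨_, rfl⟩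
  have hα0 : 0 < α := by rw [hα]; exact lt_min (by norm_num) (by linarith)
  have hα1 : α ≤ 1 / 2 := by rw [hα]; exact min_le_left _ _
  have hα2 : α ≤ c - c' := by rw [hα]; exact min_le_right _ _
  filter_upwards [h α 1 c' hα0 (by linarith) h1, eventually_gt_atTop (0 : ℝ)] with X hX h0
  have hsub : {x : ℝ | 0 ≤ x ∧ x ≤ X ∧ ∃ m : ℕ, Lm x m < 0} ⊆
      Set.Icc 0 (α * X) ∪ {x : ℝ | α * X ≤ x ∧ x ≤ 1 * X ∧ ∃ m : ℕ, Lm x m < 0} := by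
    rintro x ⟨a1, a2, a3⟩
    rcases le_total x (α * X) with h | h
    · exact Or.inl ⟨a1, h⟩
    · exact Or.inr ⟨h, by linarith, a3⟩
  refine (measure_mono hsub).trans ((measure_union_le _ _).trans ?_)
  refine (add_le_add_right hX _).trans ?_
  rw [Real.volume_Icc, ← ENNReal.ofReal_add (by nlinarith) (by
    have : 0 ≤ c' := by linarith
    have h3 : 0 ≤ (1 - α) * X := mul_nonneg (by linarith) h0.le
    positivity)]
  apply ENNReal.ofReal_le_ofReal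
  have : 0 ≤ c' := by linarith
  nlinarith [mul_le_mul_of_nonneg_right hα2 h0.le, mul_nonneg (mul_nonneg this hα0.le) h0.le]

end Pool.Agent.Helper75.PM
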