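import Pool.Agent.Helper75.PM.Sum
import Pool.Agent.Helper75.PM.Stm2

set_option autoImplicit false
set_option maxHeartbeats 1000000

open Complex Filter Topology MeasureTheory

namespace Pool.Agent.Helper75.PM

/-- choice of the parameters -/
lemma params {c : ℝ} (hc : cst < c) {α β a₀ : ℝ} (hα : 0 < α) (hβ : α < β) :
    ∃ a e : ℝ, 1 ≤ a ∧ a₀ ≤ a ∧ 0 < e ∧
      Real.log (e ^ 2 + 41 / 14) < 2 * Real.pi * c * (a / (a + 1 / 2)) := by
  have hpi := Real.pi_pos
  have h1 : Real.log (41 / 14) < 2 * Real.pi * c := by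
    unfold cst at hc
    rw [div_lt_iff₀ (by positivity)] at hc
    linarith
  have hl0 : 0 < Real.log (41 / 14) := Real.log_pos (by norm_num)
  obtain ⟨d, hd1, hd2⟩ := exists_between h1
  obtain ⟨a, ha⟩ : ∃ a : ℝ, a = max (max a₀ 1) (d / (2 * (2 * Real.pi * c - d))) := ⟨_, rfl⟩
  have ha1 : 1 ≤ a := by rw [ha]; exact (le_max_right _ _).trans (le_max_left _ _)
  have ha0 : a₀ ≤ a := by rw [ha]; exact (le_max_left _ _).trans (le_max_left _ _)
  have ha2 : d / (2 * (2 * Real.pi * c - d)) ≤ a := by rw [ha]; exact le_max_right _ _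
  have hexp : 41 / 14 < Real.exp d := by
    rw [← Real.log_lt_iff_lt_exp (by norm_num)]
    exact hd1
  refine ⟨a, Real.sqrt ((Real.exp d - 41 / 14) / 2), ha1, ha0, Real.sqrt_pos.2 (by linarith), ?_⟩
  rw [Real.sq_sqrt (by linarith)]
  have h2 : Real.log ((Real.exp d - 41 / 14) / 2 + 41 / 14) < d := by
    rw [Real.log_lt_iff_lt_exp (by linarith)]
    linarith
  have h3 : d ≤ 2 * Real.pi * c * (a / (a + 1 / 2)) := by
    rw [mul_div_assoc', le_div_iff₀ (by linarith)]
    rw [div_le_iff₀ (by linarith)] at ha2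
    nlinarith
  linarith

/-- continuity in the small parameter -/
lemma small_param {α β c a e κ : ℝ} (hα : 0 < α) (hβ : α < β) (ha : 1 ≤ a) (he : 0 < e)
    (h : Real.log (e ^ 2 + 41 / 14) + 2 * κ < 2 * Real.pi * c * (a / (a + 1 / 2))) :
    ∃ η : ℝ, 0 < η ∧ η < α / 4 ∧ 0 < 2 * Real.pi * a / (a + 1 / 2) - η ∧
      (β - α + 4 * η) / 2 * Real.log (1 + (41 / 14 + η) / e ^ 2) + η - (β - α + 2 * η) * (-Real.log e - κ) ≤
        c / 2 * (β - α) * (2 * Real.pi * a / (a + 1 / 2) - η) := by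
  have hpi := Real.pi_pos
  have he2 : 0 < e ^ 2 := by positivity
  set φ : ℝ → ℝ := fun η => c / 2 * (β - α) * (2 * Real.pi * a / (a + 1 / 2) - η) -
    ((β - α + 4 * η) / 2 * Real.log (1 + (41 / 14 + |η|) / e ^ 2) + η - (β - α + 2 * η) * (-Real.log e - κ)) with hφ
  have hcont : Continuous φ := by
    rw [hφ]
    have : ∀ η : ℝ, 1 + (41 / 14 + |η|) / e ^ 2 ≠ 0 := fun η => by positivity
    fun_prop (disch := assumption)
  have h0 : 0 < φ 0 := by
    simp only [hφ, abs_zero, add_zero, mul_zero, sub_zero]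
    have e1 : Real.log (1 + 41 / 14 / e ^ 2) = Real.log (e ^ 2 + 41 / 14) - 2 * Real.log e := by
      have : (1 + 41 / 14 / e ^ 2 : ℝ) = (e ^ 2 + 41 / 14) / e ^ 2 := by field_simp
      rw [this, Real.log_div (by positivity) (by positivity), Real.log_pow]
      norm_num
    rw [e1]
    have h1 : (β - α) / 2 * (Real.log (e ^ 2 + 41 / 14) + 2 * κ) < (β - α) / 2 * (2 * Real.pi * c * (a / (a + 1 / 2))) :=
      mul_lt_mul_of_pos_left h (by linarith)
    have e2 : c / 2 * (β - α) * (2 * Real.pi * a / (a + 1 / 2)) = (β - α) / 2 * (2 * Real.pi * c * (a / (a + 1 / 2))) := by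
      ring
    rw [e2]
    nlinarith
  have hA : 0 < 2 * Real.pi * a / (a + 1 / 2) := by positivity
  have hev : ∀ᶠ η in 𝓝 (0 : ℝ), 0 < φ η := hcont.continuousAt.eventually (lt_mem_nhds h0)
  obtain ⟨r, hr, hball⟩ := Metric.eventually_nhds_iff.1 hev
  obtain ⟨η, hη⟩ : ∃ η : ℝ, η = min (min (r / 2) (α / 8)) (Real.pi * a / (a + 1 / 2)) := ⟨_, rfl⟩
  have hη0 : 0 < η := by rw [hη]; exact lt_min (lt_min (by linarith) (by linarith)) (by positivity)
  have hη1 : η ≤ r / 2 := by rw [hη]; exact (min_le_left _ _).trans (min_le_left _ _)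
  have hη2 : η ≤ α / 8 := by rw [hη]; exact (min_le_left _ _).trans (min_le_right _ _)
  have hη3 : η ≤ Real.pi * a / (a + 1 / 2) := by rw [hη]; exact min_le_right _ _
  refine ⟨η, hη0, by linarith, ?_, ?_⟩
  · have : 2 * Real.pi * a / (a + 1 / 2) = 2 * (Real.pi * a / (a + 1 / 2)) := by ring
    have h5 : 0 < Real.pi * a / (a + 1 / 2) := by positivity
    linarith
  · have h1 := hball (y := η) (by rw [Real.dist_eq, sub_zero, abs_of_pos hη0]; linarith)
    simp only [hφ, abs_of_pos hη0] at h1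
    linarith

theorem sum2_of (hM : S_mom) (hP : S_pj) (hI : S_int) (hG : S_gr) (hF : S_F) (hF2 : S_F2) (hJ : S_jen) :
    S_sum2 := by
  intro α β c hα hβ hc
  -- the parameters; `a₀` depends on the small parameter, so we use `S_F2` with a fixed bound first
  obtain ⟨C, T₀, hC, hF⟩ := hF
  have hpi := Real.pi_pos
  -- choose first `a₀ (κ)` for all `κ`: take `κ` after `a`, by monotonicity we choose `κ` first
  have hcst : 0 ≤ cst := div_nonneg (Real.log_nonneg (by norm_num)) (by positivity)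
  have hc0 : 0 < c := by linarith
  obtain ⟨c', hc1, hc2⟩ := exists_between hc
  -- reserve for the lower bound at the centre
  obtain ⟨κ, hκ⟩ : ∃ κ : ℝ, κ = (c - c') / 4 := ⟨_, rfl⟩
  have hκ0 : 0 < κ := by rw [hκ]; linarith
  obtain ⟨a₀, hF2⟩ := hF2 κ hκ0
  obtain ⟨b, e, hb1, hb0, he, hlog⟩ := params (a₀ := a₀) hc1 hα hβ
  have hlog' : Real.log (e ^ 2 + 41 / 14) + 2 * κ < 2 * Real.pi * c * (b / (b + 1 / 2)) := by
    have hbb : 2 / 3 ≤ b / (b + 1 / 2) := by
      rw [le_div_iff₀ (by linarith)]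
      linarith
    have h3 : 3 < Real.pi := Real.pi_gt_three
    have h4 : (c - c') * (b / (b + 1 / 2)) ≥ (c - c') * (2 / 3) := by
      have : 0 ≤ c - c' := by linarith
      gcongr
    have h5 : 0 < (c - c') * (2 / 3) := by
      have : 0 < c - c' := by linarith
      positivity
    have h6 : 2 * Real.pi * ((c - c') * (b / (b + 1 / 2))) ≥ 2 * 3 * ((c - c') * (2 / 3)) := by
      have : 0 ≤ (c - c') * (b / (b + 1 / 2)) := by linarith
      nlinarith
    have h7 : 2 * Real.pi * c * (b / (b + 1 / 2)) =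
        2 * Real.pi * c' * (b / (b + 1 / 2)) + 2 * Real.pi * ((c - c') * (b / (b + 1 / 2))) := by ring
    rw [h7, hκ]
    nlinarith
  obtain ⟨η, hη, hηα, hηA, hfin⟩ := small_param hα hβ hb1 he hlog'
  obtain ⟨T₁, hF2⟩ := hF2 b hb0
  obtain ⟨H, hH, hG⟩ := hG b η (by linarith) hη
  obtain ⟨M, hMdef⟩ : ∃ M : ℝ, M = max 1 (1 / e * C) := ⟨_, rfl⟩
  have hM1 : 1 ≤ M := by rw [hMdef]; exact le_max_left _ _
  have hM2 : 1 / e * C ≤ M := by rw [hMdef]; exact le_max_right _ _
  have hlog2 : 0 < Real.log 2 := Real.log_pos (by norm_num)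
  obtain ⟨B, hB⟩ : ∃ B : ℝ, B = 2 + Real.log M / Real.log 2 := ⟨_, rfl⟩
  have hlM : 0 ≤ Real.log M := Real.log_nonneg hM1
  have hB0 : 2 ≤ B := by rw [hB]; have := div_nonneg hlM hlog2.le; linarith
  have hint := hI b (α - η) (β + η) η η B (by linarith) (by linarith) (by linarith) hη hη (by linarith)
  have hmom := hM (α - η - η) (β + η + η) η (by linarith) (by linarith) hη
  filter_upwards [hint, hmom, eventually_ge_atTop (2 : ℝ), eventually_ge_atTop ((H + 1) / η),
    eventually_ge_atTop (|T₁| / (α - η))] with T hint hmom hT2 hTH hT1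
  intro Z hZ
  have hT0 : 0 < T := by linarith
  rw [div_le_iff₀ hη] at hTH
  rw [div_le_iff₀ (by linarith)] at hT1
  obtain ⟨N, a, hN, hNT, ha1, ha, hmo⟩ := hmom
  obtain ⟨f1, f2, f3, f4, -⟩ := hF N a hN ha1 ha
  have f5 := hF2 N a hN ha1 ha
  have hNR : (1 : ℝ) ≤ N := by exact_mod_cast hN
  have he' : 0 < 1 / e := by positivity
  -- the function
  set F : ℂ → ℂ := fun s => ((1 / e : ℝ) : ℂ) * FF N a s with hFdef
  have hFn : ∀ s, ‖F s‖ = 1 / e * ‖FF N a s‖ := by
    intro s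
    rw [hFdef]
    simp only [norm_mul, Complex.norm_real, Real.norm_eq_abs, abs_of_pos he']
  set g : ℝ → ℝ := fun x => Real.posLog ‖F (1 / 2 + (x : ℂ) * I)‖ with hg
  have hFd : ∀ s : ℂ, 0 < s.re → DifferentiableAt ℂ F s := fun s hs => (f1 s hs).const_mul _
  have hFc : Continuous fun x : ℝ => F (1 / 2 + (x : ℂ) * I) := by
    rw [continuous_iff_continuousAt]
    intro x
    have h1 : ContinuousAt F (1 / 2 + (x : ℂ) * I) := (hFd _ (by simp)).continuousAt
    exact ContinuousAt.comp (f := fun x : ℝ => (1 / 2 + (x : ℂ) * I : ℂ)) h1 (by fun_prop)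
  have hgc : Continuous g := Real.continuous_posLog.comp hFc.norm
  have hg0 : ∀ x, 0 ≤ g x := fun x => Real.posLog_nonneg
  have hgB : ∀ x, g x ≤ B * (Real.log T + Real.log (2 + |x|)) := by
    intro x
    have hx2 : (2 : ℝ) ≤ 2 + |x| := by linarith [abs_nonneg x]
    have h1 := f2 (1 / 2 + (x : ℂ) * I) (by simp)
    have h2 : ‖(1 / 2 + (x : ℂ) * I : ℂ)‖ + 1 ≤ 2 + |x| := by
      have h3 := norm_add_le (1 / 2 : ℂ) ((x : ℂ) * I)
      have h4 : ‖(1 / 2 : ℂ)‖ = 1 / 2 := by norm_num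
      have h5 : ‖(x : ℂ) * I‖ = |x| := by simp
      linarith
    have h3 : ‖F (1 / 2 + (x : ℂ) * I)‖ ≤ M * T * (2 + |x|) ^ 2 := by
      rw [hFn]
      have e1 : (‖(1 / 2 + (x : ℂ) * I : ℂ)‖ + 1) ^ (2 : ℝ) ≤ (2 + |x|) ^ 2 := by
        rw [Real.rpow_two]
        gcongr
      calc 1 / e * ‖FF N a (1 / 2 + (x : ℂ) * I)‖ ≤
          1 / e * (C * N * (‖(1 / 2 + (x : ℂ) * I : ℂ)‖ + 1) ^ (2 : ℝ)) := by gcongr
        _ ≤ 1 / e * (C * T * (2 + |x|) ^ 2) := by gcongr
        _ = 1 / e * C * T * (2 + |x|) ^ 2 := by ring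
        _ ≤ _ := by gcongr
    have h4 : g x ≤ Real.posLog (M * T * (2 + |x|) ^ 2) := posLog_mono (norm_nonneg _) h3
    have h5 : 1 ≤ M * T * (2 + |x|) ^ 2 := by
      have : 1 ≤ M * T := by nlinarith
      have h6 : (1 : ℝ) ≤ (2 + |x|) ^ 2 := by nlinarith
      nlinarith
    have h6 : Real.posLog (M * T * (2 + |x|) ^ 2) = Real.log (M * T * (2 + |x|) ^ 2) := by
      apply Real.posLog_eq_log
      rw [abs_of_pos (by linarith)]
      exact h5
    rw [h6, Real.log_mul (by positivity) (by positivity), Real.log_mul (by positivity) (by positivity),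
      Real.log_pow] at h4
    have h7 : Real.log M ≤ Real.log M / Real.log 2 * Real.log (2 + |x|) := by
      have : Real.log 2 ≤ Real.log (2 + |x|) := Real.log_le_log (by norm_num) hx2
      rw [div_mul_eq_mul_div, le_div_iff₀ hlog2]
      gcongr
    have h8 : 0 ≤ Real.log T := Real.log_nonneg (by linarith)
    have h9 : 0 ≤ Real.log (2 + |x|) := Real.log_nonneg (by linarith)
    rw [hB]
    push_cast at h4
    have h10 : 0 ≤ Real.log M / Real.log 2 := div_nonneg hlM hlog2.le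
    nlinarith
  obtain ⟨i1, i2⟩ := hint g hgc hg0 hgB
  -- the pointwise inequality
  have hgrow : ∀ s : ℂ, 1 / 2 ≤ s.re → ‖F s‖ ≤ Real.exp (Real.log (1 / e * (C * N))) * (‖s‖ + 1) ^ (2 : ℝ) := by
    intro s hs
    rw [Real.exp_log (by positivity), hFn]
    have := f2 s hs
    calc 1 / e * ‖FF N a s‖ ≤ 1 / e * (C * N * (‖s‖ + 1) ^ (2 : ℝ)) := by gcongr
      _ = _ := by ring
  have hZ' : ∀ ρ ∈ Z, 1 / 2 < ρ.re ∧ F ρ = 0 := by
    intro ρ hρ
    obtain ⟨z1, z2, z3, z4, z5⟩ := hZ ρ hρ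
    refine ⟨z2, ?_⟩
    simp only [hFdef]
    rw [f4 ρ z1 z2 z3, mul_zero]
  set Gr : ℂ → ℝ → ℝ := fun ρ t => Real.log (‖1 / 2 + (b : ℂ) + t * I - (1 - starRingEnd ℂ ρ)‖ /
    ‖1 / 2 + (b : ℂ) + t * I - ρ‖) with hGr
  have hpt : ∀ t ∈ Set.Icc ((α - η) * T) ((β + η) * T),
      (-Real.log e - κ) + ∑ ρ ∈ Z, Gr ρ t ≤ (2 * Real.pi)⁻¹ * ∫ θ in (0 : ℝ)..2 * Real.pi, g (t + b * ct θ) := by
    intro t ht
    have ht1 : T₁ ≤ t := by
      have := le_abs_self T₁
      linarith [ht.1]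
    obtain ⟨g1, g2⟩ := f5 t ht1
    have g3 : F (1 / 2 + (b : ℂ) + t * I) ≠ 0 := by
      simp only [hFdef]
      exact mul_ne_zero (by exact_mod_cast he'.ne') g1
    have h1 := hP F _ 2 hFd (by norm_num) hgrow Z hZ' b t (by linarith) g3
    have h2 : Real.log ‖F (1 / 2 + (b : ℂ) + t * I)‖ =
        -Real.log e + Real.log ‖FF N a (1 / 2 + (b : ℂ) + t * I)‖ := by
      rw [hFn, Real.log_mul (by positivity) (norm_ne_zero_iff.2 g1), one_div, Real.log_inv]
    rw [h2] at h1
    refine le_trans ?_ h1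
    simp only [hGr]
    linarith
  -- integration
  have hle : (α - η) * T ≤ (β + η) * T := by nlinarith
  have hGi : ∀ ρ ∈ Z, IntervalIntegrable (Gr ρ) volume ((α - η) * T) ((β + η) * T) ∧
      (2 * Real.pi * b / (b + 1 / 2) - η) * (ρ.re - 1 / 2) ≤
        ∫ t in ((α - η) * T)..((β + η) * T), Gr ρ t := by
    intro ρ hρ
    obtain ⟨z1, z2, z3, z4, z5⟩ := hZ ρ hρ
    exact hG ρ ((α - η) * T) ((β + η) * T) z2 z3.le (by linarith) (by linarith)
  have hsumI : IntervalIntegrable (fun t => ∑ ρ ∈ Z, Gr ρ t) volume ((α - η) * T) ((β + η) * T) := by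
    have := IntervalIntegrable.sum Z (f := Gr) (μ := volume) (a := (α - η) * T) (b := (β + η) * T)
      (fun ρ hρ => (hGi ρ hρ).1)
    have e : (fun t => ∑ ρ ∈ Z, Gr ρ t) = ∑ ρ ∈ Z, Gr ρ := by funext t; simp
    rw [e]
    exact this
  have hmono := intervalIntegral.integral_mono_on hle
    ((intervalIntegrable_const (c := (-Real.log e - κ))).add hsumI) i1 (fun t ht => hpt t ht)
  have hL : ∫ t in ((α - η) * T)..((β + η) * T), ((-Real.log e - κ) + ∑ ρ ∈ Z, Gr ρ t) =
      (-Real.log e - κ) * ((β - α + 2 * η) * T) + ∑ ρ ∈ Z, ∫ t in ((α - η) * T)..((β + η) * T), Gr ρ t := by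
    rw [intervalIntegral.integral_add intervalIntegrable_const hsumI, intervalIntegral.integral_finsetSum
      (fun ρ hρ => (hGi ρ hρ).1), intervalIntegral.integral_const, smul_eq_mul]
    ring
  -- the right side
  have hAB : (α - η - η) * T < (β + η + η) * T := by nlinarith
  have hhc : Continuous (hh N a) := by
    unfold hh
    refine Continuous.mul ?_ ?_
    · have : Continuous fun t : ℝ => riemannZeta (1 / 2 + t * I) := by
        rw [continuous_iff_continuousAt]
        intro x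
        have h1 : ContinuousAt riemannZeta (1 / 2 + (x : ℂ) * I) := by
          refine (differentiableAt_riemannZeta ?_).continuousAt
          intro h
          have := congrArg Complex.re h
          norm_num at this
        exact ContinuousAt.comp (f := fun x : ℝ => (1 / 2 + (x : ℂ) * I : ℂ)) h1 (by fun_prop)
      exact this.norm
    · unfold Dp
      refine Continuous.norm ?_
      refine continuous_finsetSum _ fun n hn => ?_
      have hn0 : (n : ℂ) ≠ 0 := by
        have := (Finset.mem_Icc.1 hn).1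
        exact_mod_cast (by omega : n ≠ 0)
      exact continuous_const.mul (Continuous.const_cpow (by fun_prop) (Or.inl hn0))
  have hhn : ∀ x, 0 ≤ hh N a x := fun x => mul_nonneg (norm_nonneg _) (norm_nonneg _)
  have hj := hJ ((α - η - η) * T) ((β + η + η) * T) e (hh N a) hAB he hhc hhn
  have hgle : ∫ x in ((α - η - η) * T)..((β + η + η) * T), g x ≤
      ∫ x in ((α - η - η) * T)..((β + η + η) * T), Real.posLog (hh N a x / e) := by
    refine intervalIntegral.integral_mono_on hAB.le (hgc.intervalIntegrable _ _)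
      ((Real.continuous_posLog.comp (hhc.div_const _)).intervalIntegrable _ _) (fun x _ => ?_)
    refine posLog_mono (norm_nonneg _) ?_
    rw [hFn]
    have := f3 x
    have e' : hh N a x / e = 1 / e * hh N a x := by ring
    rw [e']
    gcongr
  have hlogle : Real.log (1 + (∫ x in ((α - η - η) * T)..((β + η + η) * T), hh N a x ^ 2) /
      (e ^ 2 * ((β + η + η) * T - (α - η - η) * T))) ≤ Real.log (1 + (41 / 14 + η) / e ^ 2) := by
    have h0 : 0 ≤ ∫ x in ((α - η - η) * T)..((β + η + η) * T), hh N a x ^ 2 :=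
      intervalIntegral.integral_nonneg hAB.le fun x _ => by positivity
    have hden0 : 0 < (β + η + η) * T - (α - η - η) * T := by linarith
    have hden : 0 < e ^ 2 * ((β + η + η) * T - (α - η - η) * T) := mul_pos (by positivity) hden0
    refine Real.log_le_log (by positivity) ?_
    have : (∫ x in ((α - η - η) * T)..((β + η + η) * T), hh N a x ^ 2) /
      (e ^ 2 * ((β + η + η) * T - (α - η - η) * T)) ≤ (41 / 14 + η) / e ^ 2 := by
      rw [div_le_iff₀ hden]
      have h1 : (41 / 14 + η) / e ^ 2 * (e ^ 2 * ((β + η + η) * T - (α - η - η) * T)) =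
          (41 / 14 + η) * (((β + η + η) - (α - η - η)) * T) := by
        field_simp
      rw [h1]
      exact hmo
    linarith
  have hS : (∑ ρ ∈ Z, (ρ.re - 1 / 2)) * (2 * Real.pi * b / (b + 1 / 2) - η) ≤
      ∑ ρ ∈ Z, ∫ t in ((α - η) * T)..((β + η) * T), Gr ρ t := by
    rw [Finset.sum_mul]
    refine Finset.sum_le_sum fun ρ hρ => ?_
    have := (hGi ρ hρ).2
    linarith
  have hSn : 0 ≤ ∑ ρ ∈ Z, (ρ.re - 1 / 2) := Finset.sum_nonneg fun ρ hρ => by
    have := (hZ ρ hρ).2.1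
    linarith
  have e1 : ((α - η) - η) * T = (α - η - η) * T := by ring
  have e2 : ((β + η) + η) * T = (β + η + η) * T := by ring
  have key : (∑ ρ ∈ Z, (ρ.re - 1 / 2)) * (2 * Real.pi * b / (b + 1 / 2) - η) ≤
      ((β - α + 4 * η) / 2 * Real.log (1 + (41 / 14 + η) / e ^ 2) + η - (β - α + 2 * η) * (-Real.log e - κ)) * T := by
    have h2 : ((β + η + η) * T - (α - η - η) * T) / 2 * Real.log (1 + (∫ x in ((α - η - η) * T)..((β + η + η) * T), hh N a x ^ 2) /
      (e ^ 2 * ((β + η + η) * T - (α - η - η) * T))) ≤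
        ((β + η + η) * T - (α - η - η) * T) / 2 * Real.log (1 + (41 / 14 + η) / e ^ 2) := by
      refine mul_le_mul_of_nonneg_left hlogle ?_
      linarith
    rw [hL] at hmono
    have h3 : ((β + η + η) * T - (α - η - η) * T) / 2 * Real.log (1 + (41 / 14 + η) / e ^ 2) =
        (β - α + 4 * η) / 2 * Real.log (1 + (41 / 14 + η) / e ^ 2) * T := by ring
    linarith
  have h5 := key.trans (mul_le_mul_of_nonneg_right hfin hT0.le)
  have e6 : c / 2 * (β - α) * (2 * Real.pi * b / (b + 1 / 2) - η) * T =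
      (c / 2 * (β - α) * T) * (2 * Real.pi * b / (b + 1 / 2) - η) := by ring
  rw [e6] at h5
  have h7 := le_of_mul_le_mul_right h5 hηA
  have e7 : ∑ ρ ∈ Z, 2 * (ρ.re - 1 / 2) = 2 * ∑ ρ ∈ Z, (ρ.re - 1 / 2) := by rw [Finset.mul_sum]
  rw [e7]
  linarith

end Pool.Agent.Helper75.PM
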