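import Pool.Agent.Helper75.PM.Sel
import Pool.Agent.Helper75.PM.Sum2
import Pool.Agent.Helper46.PM.Diag
import Pool.Agent.Helper53.PM.Sums
import Pool.Agent.Helper47.PM.Avg
import Pool.Agent.Helper28.PM.PJ
import Pool.Agent.Helper45.PM.Int
import Pool.Agent.Helper18.PM.Gr
import Pool.Agent.Helper18.PM.Jen
import Pool.Agent.Helper18.PM.Meas
import Pool.Agent.Helper68.PM.SF2
import Pool.Agent.Helper63.PM.CO1
import Pool.Agent.Helper63.PM.CO2
import Pool.Agent.Helper76.PM.Win
import Pool.Agent.Helper76.PM.Mom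
import Pool.Graph.R_seed8.Results.MP_4e5e8a_nt.TwistedMomentAsymptotic

/-! Assembly of the project PM. -/

set_option autoImplicit false

open Complex Filter Topology MeasureTheory

namespace Pool.Agent.Helper75.PM

open Pool.Agent.Helper85.LG (Lm G xi)

theorem tsm : S_tsm := Pool.Agent.Results.MP_4e5e8a_nt.TwistedMomentAsymptotic.result

theorem sel_all : S_sel := sel Pool.Agent.Helper46.PM.diag Pool.Agent.Helper53.PM.sums

theorem mom_all : S_mom :=
  Pool.Agent.Helper76.PM.mom (Pool.Agent.Helper76.PM.win tsm sel_all) Pool.Agent.Helper47.PM.avg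

theorem cone_all : S_cone := Pool.Agent.Helper63.PM.s_cone Pool.Agent.Helper63.PM.s_cone1

theorem sum2_all : S_sum2 :=
  sum2_of mom_all Pool.Agent.Helper28.PM.pj Pool.Agent.Helper45.PM.int Pool.Agent.Helper18.PM.gr
    Pool.Agent.Helper68.PM.sF Pool.Agent.Helper68.PM.sF2 Pool.Agent.Helper18.PM.jen

theorem main2 : S_main2 := main2_of (Pool.Agent.Helper18.PM.meas2 cone_all) sum2_all

theorem dens : S_dens := dens_of main2

end Pool.Agent.Helper75.PM
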