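import Mathlib
import Pool.Agent.Helper75.PM.Main
import Pool.Agent.Helper68.HM.Fin

set_option autoImplicit false

/-! The measure of the set of the `x` whose cone `|Im s - x| < Re s - 1/2` contains a zero of zeta. -/

open Complex Filter Topology MeasureTheory

namespace Pool.Agent.Helper75.PM

/-- the `x` for which the cone `|Im s - x| < Re s - 1/2` contains a zero -/
def ConeSet : Set ℝ := {x : ℝ | ∃ s : ℂ, riemannZeta s = 0 ∧ |s.im - x| < s.re - 1 / 2}

lemma coneSet_symm (x : ℝ) (hx : x ∈ ConeSet) : -x ∈ ConeSet := by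
  obtain ⟨s, hs, h⟩ := hx
  have hs1 : s ≠ 1 := by
    rintro rfl
    exact riemannZeta_ne_zero_of_one_le_re (by simp) hs
  refine ⟨starRingEnd ℂ s, ?_, ?_⟩
  · have h1 : s.re < 1 := by
      by_contra hcon
      exact riemannZeta_ne_zero_of_one_le_re (not_lt.1 hcon) hs
    have hre : 1 / 2 < s.re := by
      have := abs_nonneg (s.im - x)
      linarith
    -- through `ξ`
    have h2 := Pool.Agent.Helper68.HM.zeta_zero_fx hs (by
      rintro ⟨n, hn⟩
      have := congrArg Complex.re hn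
      simp at this
      have hn0 : (0 : ℝ) ≤ n := Nat.cast_nonneg n
      linarith) hs1
    have h3 : Pool.Agent.Helper75.Jen.fx (starRingEnd ℂ s - 1 / 2) = 0 := by
      have e : starRingEnd ℂ s - 1 / 2 = starRingEnd ℂ (s - 1 / 2) := by
        simp only [map_sub, map_div₀, map_one, map_ofNat]
      rw [e, Pool.Agent.Helper75.Jen.fx_conj, h2, map_zero]
    have h4 := Pool.Agent.Helper68.HM.fx_zero_zeta h3
    rwa [add_sub_cancel] at h4
  · rw [conj_re, conj_im]
    have e : |-s.im - -x| = |s.im - x| := by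
      rw [← abs_neg]
      congr 1
      ring
    rw [e]
    exact h

theorem measU (A B : ℝ) (hA : 1 ≤ A) (hAB : A ≤ B) : ∃ Z : Finset ℂ, (∀ ρ ∈ Z, riemannZeta ρ = 0 ∧
    1 / 2 < ρ.re ∧ ρ.re < 1 ∧ A - 1 ≤ ρ.im ∧ ρ.im ≤ B + 1) ∧
    volume (ConeSet ∩ Set.Icc A B) ≤ ENNReal.ofReal (∑ ρ ∈ Z, 2 * (ρ.re - 1 / 2)) := by
  classical
  have hfin := (isCompact_closedBall (0 : ℂ) (B + 3)).inter_riemannZetaZeros_finite
  obtain ⟨Z, hZ⟩ : ∃ Z : Finset ℂ, Z = hfin.toFinset.filter fun ρ =>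
    riemannZeta ρ = 0 ∧ 1 / 2 < ρ.re ∧ ρ.re < 1 ∧ A - 1 ≤ ρ.im ∧ ρ.im ≤ B + 1 := ⟨_, rfl⟩
  have hmem : ∀ ρ ∈ Z, riemannZeta ρ = 0 ∧ 1 / 2 < ρ.re ∧ ρ.re < 1 ∧ A - 1 ≤ ρ.im ∧
      ρ.im ≤ B + 1 := by
    intro ρ hρ
    rw [hZ, Finset.mem_filter] at hρ
    exact hρ.2
  refine ⟨Z, hmem, ?_⟩
  have hsub : ConeSet ∩ Set.Icc A B ⊆
      ⋃ ρ ∈ Z, Set.Ioo (ρ.im - (ρ.re - 1 / 2)) (ρ.im + (ρ.re - 1 / 2)) := by
    rintro x ⟨⟨ρ, hρ0, hρ3⟩, h1, h2⟩
    have hρ1 : 1 / 2 < ρ.re := by
      have := abs_nonneg (ρ.im - x)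
      linarith
    have hρ2 : ρ.re < 1 := by
      by_contra hcon
      exact riemannZeta_ne_zero_of_one_le_re (not_lt.1 hcon) hρ0
    rw [abs_lt] at hρ3
    obtain ⟨h4, h5⟩ := hρ3
    have h6 : ρ ∈ Z := by
      rw [hZ, Finset.mem_filter, Set.Finite.mem_toFinset]
      refine ⟨⟨?_, ?_⟩, hρ0, hρ1, hρ2, by linarith, by linarith⟩
      · rw [Metric.mem_closedBall, dist_zero_right]
        refine (Complex.norm_le_abs_re_add_abs_im ρ).trans ?_
        rw [abs_of_pos (show 0 < ρ.re by linarith), abs_of_pos (show 0 < ρ.im by linarith)]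
        linarith
      · rw [mem_riemannZetaZeros]
        exact hρ0
    rw [Set.mem_iUnion₂]
    exact ⟨ρ, h6, by linarith, by linarith⟩
  refine (measure_mono hsub).trans ((measure_biUnion_finset_le _ _).trans ?_)
  rw [ENNReal.ofReal_sum_of_nonneg fun ρ hρ => by
    have := (hmem ρ hρ).2.1
    linarith]
  refine Finset.sum_le_sum fun ρ _ => ?_
  rw [Real.volume_Ioo]
  apply le_of_eq
  congr 1
  ring

theorem coneU_pos (a b c : ℝ) (ha : 0 < a) (hab : a < b) (hc : cst < c) : ∀ᶠ T : ℝ in atTop,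
    volume (ConeSet ∩ Set.Icc (a * T) (b * T)) ≤ ENNReal.ofReal (c * (b - a) * T) := by
  filter_upwards [sum2_all a b c ha hab hc, eventually_ge_atTop (1 / a), eventually_gt_atTop (0 : ℝ)]
    with T hT h1 h0
  obtain ⟨Z, hZ, hv⟩ := measU (a * T) (b * T) (by rw [div_le_iff₀ ha] at h1; linarith) (by nlinarith)
  refine hv.trans (ENNReal.ofReal_le_ofReal ((hT Z hZ).trans (le_of_eq ?_)))
  ring

lemma coneU_symm (A B : ℝ) : volume (ConeSet ∩ Set.Icc A B) = volume (ConeSet ∩ Set.Icc (-B) (-A)) := by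
  have h : ConeSet ∩ Set.Icc A B = -(ConeSet ∩ Set.Icc (-B) (-A)) := by
    ext x
    simp only [Set.mem_inter_iff, Set.mem_Icc, Set.mem_neg]
    constructor
    · rintro ⟨h1, h2, h3⟩
      exact ⟨coneSet_symm x h1, by linarith, by linarith⟩
    · rintro ⟨h1, h2, h3⟩
      refine ⟨?_, by linarith, by linarith⟩
      have := coneSet_symm _ h1
      rwa [neg_neg] at this
  rw [h]
  exact Measure.measure_neg _ _

theorem coneU_zero (b c : ℝ) (hb : 0 < b) (hc : cst < c) : ∀ᶠ T : ℝ in atTop,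
    volume (ConeSet ∩ Set.Icc (0 * T) (b * T)) ≤ ENNReal.ofReal (c * (b - 0) * T) := by
  have hcst : 0 ≤ cst := div_nonneg (Real.log_nonneg (by norm_num)) (by positivity)
  obtain ⟨c', h1, h2⟩ := exists_between hc
  obtain ⟨α, hα⟩ : ∃ α : ℝ, α = min (1 / 2) (c - c') := ⟨_, rfl⟩
  have hα0 : 0 < α := by rw [hα]; exact lt_min (by norm_num) (by linarith)
  have hα1 : α ≤ 1 / 2 := by rw [hα]; exact min_le_left _ _
  have hα2 : α ≤ c - c' := by rw [hα]; exact min_le_right _ _
  filter_upwards [coneU_pos (α * b) b c' (by positivity) (by nlinarith) h1, eventually_gt_atTop (0 : ℝ)]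
    with X hX h0
  have hsub : ConeSet ∩ Set.Icc (0 * X) (b * X) ⊆
      Set.Icc 0 (α * b * X) ∪ (ConeSet ∩ Set.Icc (α * b * X) (b * X)) := by
    rintro x ⟨a1, a2, a3⟩
    rw [zero_mul] at a2
    rcases le_total x (α * b * X) with h | h
    · exact Or.inl ⟨a2, h⟩
    · exact Or.inr ⟨a1, h, a3⟩
  have hbX : 0 < b * X := by positivity
  have hc'0 : 0 ≤ c' := by linarith
  refine (measure_mono hsub).trans ((measure_union_le _ _).trans ?_)
  refine (add_le_add_right hX _).trans ?_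
  have h3 : 0 ≤ c' * (b - α * b) * X := by
    have : 0 ≤ b - α * b := by nlinarith
    positivity
  rw [Real.volume_Icc, ← ENNReal.ofReal_add (by rw [sub_zero]; positivity) h3]
  apply ENNReal.ofReal_le_ofReal
  have e1 : α * b * X - 0 + c' * (b - α * b) * X = (α + c' - c' * α) * (b * X) := by ring
  have e2 : c * (b - 0) * X = c * (b * X) := by ring
  rw [e1, e2]
  refine mul_le_mul_of_nonneg_right ?_ hbX.le
  have : 0 ≤ c' * α := by positivity
  linarith

/-- the theorem for all windows -/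
theorem coneU (a b c : ℝ) (hab : a < b) (hc : cst < c) : ∀ᶠ T : ℝ in atTop,
    volume (ConeSet ∩ Set.Icc (a * T) (b * T)) ≤ ENNReal.ofReal (c * (b - a) * T) := by
  have hcst : 0 ≤ cst := div_nonneg (Real.log_nonneg (by norm_num)) (by positivity)
  have hpos : ∀ a b : ℝ, 0 ≤ a → a < b → ∀ᶠ T : ℝ in atTop,
      volume (ConeSet ∩ Set.Icc (a * T) (b * T)) ≤ ENNReal.ofReal (c * (b - a) * T) := by
    intro a b ha hab
    rcases ha.eq_or_lt with rfl | ha
    · exact coneU_zero b c hab hc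
    · exact coneU_pos a b c ha hab hc
  rcases le_or_gt 0 a with ha | ha
  · exact hpos a b ha hab
  rcases le_or_gt b 0 with hb | hb
  · filter_upwards [hpos (-b) (-a) (by linarith) (by linarith)] with T hT
    rw [coneU_symm]
    have e1 : -(b * T) = -b * T := by ring
    have e2 : -(a * T) = -a * T := by ring
    have e3 : c * (b - a) * T = c * (-a - -b) * T := by ring
    rw [e1, e2, e3]
    exact hT
  · filter_upwards [hpos 0 b le_rfl hb, hpos 0 (-a) le_rfl (by linarith),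
      eventually_gt_atTop (0 : ℝ)] with T h1 h2 hT
    have hsub : ConeSet ∩ Set.Icc (a * T) (b * T) ⊆
        (ConeSet ∩ Set.Icc (a * T) (0 * T)) ∪ (ConeSet ∩ Set.Icc (0 * T) (b * T)) := by
      rintro x ⟨hx, h3, h4⟩
      rcases le_total x (0 * T) with h | h
      · exact Or.inl ⟨hx, h3, h⟩
      · exact Or.inr ⟨hx, h, h4⟩
    have e1 : volume (ConeSet ∩ Set.Icc (a * T) (0 * T)) = volume (ConeSet ∩ Set.Icc (0 * T) (-a * T)) := by
      rw [coneU_symm]
      have e3 : -(0 * T) = 0 * T := by ring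
      have e4 : -(a * T) = -a * T := by ring
      rw [e3, e4]
    refine (measure_mono hsub).trans ((measure_union_le _ _).trans ?_)
    rw [e1]
    refine (add_le_add h2 h1).trans ?_
    have hc0 : 0 < c := by linarith
    rw [← ENNReal.ofReal_add]
    · apply ENNReal.ofReal_le_ofReal
      apply le_of_eq
      ring
    · have : 0 < -a - 0 := by linarith
      positivity
    · have : 0 < b - 0 := by linarith
      positivity

end Pool.Agent.Helper75.PM
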