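import Pool.Agent.Helper75.PM.Stm

set_option autoImplicit false

open Complex Filter Topology MeasureTheory

namespace Pool.Agent.Helper75.PM

theorem sel (hA : S_diag) (hB : S_sums) : S_sel := by
  obtain ⟨h1, C, hC, h2, h3⟩ := hB
  refine ⟨3 * C, by positivity, fun N hN => ?_⟩
  have hN1 : 1 ≤ N := by omega
  obtain ⟨a, ha1, ha, hQ⟩ := hA N hN1
  refine ⟨a, ha1, ha, fun L hL => ?_⟩
  have hlog : 0 < Real.log N := Real.log_pos (by exact_mod_cast hN)
  have hS : Real.log N ≤ SS N := h1 N hN1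
  have hS0 : 0 < SS N := by linarith
  rw [hQ L]
  have e1 : L * SS N + 2 * ∑ d ∈ Finset.Icc 1 N, w d * kp d + 2 * ∑ m ∈ Finset.Icc 1 N, w m * Real.log m ≤
      (L + 3 * C + Real.log N) * SS N := by
    have := h2 N hN1
    have := h3 N hN1
    nlinarith
  calc _ ≤ (L + 3 * C + Real.log N) * SS N / SS N ^ 2 := by gcongr
    _ = (L + 3 * C + Real.log N) / SS N := by field_simp
    _ ≤ (L + 3 * C + Real.log N) / Real.log N := by gcongr
    _ = (L + 3 * C) / Real.log N + 1 := by field_simp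

end Pool.Agent.Helper75.PM
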