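import Pool.Agent.Helper75.PM.Stm
import Pool.Agent.Helper85.LG.Ser

/-! Statements of the project PM, part 2: Laguerre inequalities. -/

set_option autoImplicit false

open Complex Filter Topology MeasureTheory

namespace Pool.Agent.Helper75.PM

open Pool.Agent.Helper85.LG (Lm G xi)

/-- CO2. (from `S_cone1`, applied to the entire function `Φ` with `Φ (w ^ 2) = G x w`; `G x` is even; the zeros of `Φ`
are the squares of `ρ - 1/2 ∓ x I`.) If no zero off the line lies in the open cone at `x`, all the Laguerre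
inequalities hold at `x`. -/
def S_cone : Prop := ∀ x : ℝ, (∀ ρ : ℂ, riemannZeta ρ = 0 → 1 / 2 < ρ.re → ρ.re < 1 → |ρ.re - 1 / 2| ≤ |ρ.im - x|) →
  ∀ m : ℕ, 0 ≤ Lm x m

/-- ME. (from `S_cone`) union bound: the bad set is contained in the union of the intervals
`|x - ρ.im| < ρ.re - 1/2` over the zeros with `1/2 < ρ.re < 1` (finitely many with bounded ordinate). -/
def S_meas : Prop := ∀ T : ℝ, 1 ≤ T → ∃ Z : Finset ℂ, (∀ ρ ∈ Z, riemannZeta ρ = 0 ∧ 1 / 2 < ρ.re ∧ ρ.re < 1 ∧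
    T - 1 ≤ ρ.im ∧ ρ.im ≤ 2 * T + 1) ∧
  volume {x : ℝ | T ≤ x ∧ x ≤ 2 * T ∧ ∃ m : ℕ, Lm x m < 0} ≤ ENNReal.ofReal (∑ ρ ∈ Z, 2 * (ρ.re - 1 / 2))

/-- FI. (from `S_mom`, `S_pj`, `S_int`, `S_gr`, `S_F`, `S_jen`) -/
def S_sum : Prop := ∀ᶠ T : ℝ in atTop, ∀ Z : Finset ℂ, (∀ ρ ∈ Z, riemannZeta ρ = 0 ∧ 1 / 2 < ρ.re ∧ ρ.re < 1 ∧
    T - 1 ≤ ρ.im ∧ ρ.im ≤ 2 * T + 1) → ∑ ρ ∈ Z, 2 * (ρ.re - 1 / 2) ≤ 18 / 100 * T

/-- the theorem: all Laguerre inequalities hold at 82 percent of all points -/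
def S_main : Prop := ∀ᶠ T : ℝ in atTop,
  volume {x : ℝ | T ≤ x ∧ x ≤ 2 * T ∧ ∃ m : ℕ, Lm x m < 0} ≤ ENNReal.ofReal (18 / 100 * T)

theorem main_of (hM : S_meas) (hS : S_sum) : S_main := by
  filter_upwards [hS, eventually_ge_atTop 1] with T hT h1
  obtain ⟨Z, hZ, hv⟩ := hM T h1
  exact hv.trans (ENNReal.ofReal_le_ofReal (hT Z hZ))

end Pool.Agent.Helper75.PM
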