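import Pool.Agent.Helper75.PM.StmL

set_option autoImplicit false
set_option maxHeartbeats 1000000

open Complex Filter Topology MeasureTheory

namespace Pool.Agent.Helper75.PM

lemma log10_ge : (2.30249 : ℝ) ≤ Real.log 10 := by
  have h1 : 3 * Real.log 10 = 10 * Real.log 2 + Real.log (1000 / 1024) := by
    have e1 : 3 * Real.log 10 = Real.log (10 ^ 3) := by rw [Real.log_pow]; norm_num
    have e2 : 10 * Real.log 2 = Real.log (2 ^ 10) := by rw [Real.log_pow]; norm_num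
    rw [e1, e2, ← Real.log_mul (by norm_num) (by norm_num)]
    norm_num
  have h2 : 1 - (1000 / 1024 : ℝ)⁻¹ ≤ Real.log (1000 / 1024) := Real.one_sub_inv_le_log_of_pos (by norm_num)
  have h3 := Real.log_two_gt_d9
  have h4 : 1 - (1000 / 1024 : ℝ)⁻¹ = -0.024 := by norm_num
  linarith

lemma log295_le : Real.log (1 + (41 / 14 + 1 / 100) * 100) ≤ 5.697 := by
  have e0 : (1 + (41 / 14 + 1 / 100) * 100 : ℝ) = 2 ^ 8 * ((1 + (41 / 14 + 1 / 100) * 100) / 256) := by norm_num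
  rw [e0, Real.log_mul (by norm_num) (by norm_num), Real.log_pow]
  have h1 := Real.log_le_sub_one_of_pos (show (0 : ℝ) < (1 + (41 / 14 + 1 / 100) * 100) / 256 by norm_num)
  have h2 := Real.log_two_lt_d9
  have h3 : ((1 + (41 / 14 + 1 / 100) * 100) / 256 - 1 : ℝ) ≤ 0.1518 := by norm_num
  push_cast
  linarith

lemma posLog_mono {x y : ℝ} (hx : 0 ≤ x) (h : x ≤ y) : Real.posLog x ≤ Real.posLog y := by
  exact Real.posLog_le_posLog hx h

theorem sum_of (hM : S_mom) (hP : S_pj) (hI : S_int) (hG : S_gr) (hF : S_F) (hJ : S_jen) : S_sum := by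
  obtain ⟨H, hH, hG⟩ := hG 40 (1 / 1000) (by norm_num) (by norm_num)
  obtain ⟨C, T₁, hC, hF⟩ := hF
  obtain ⟨M, hMdef⟩ : ∃ M : ℝ, M = max 1 (10 * C) := ⟨_, rfl⟩
  have hM1 : 1 ≤ M := by rw [hMdef]; exact le_max_left _ _
  have hM2 : 10 * C ≤ M := by rw [hMdef]; exact le_max_right _ _
  have hlog2 : 0 < Real.log 2 := Real.log_pos (by norm_num)
  obtain ⟨B, hB⟩ : ∃ B : ℝ, B = 2 + Real.log M / Real.log 2 := ⟨_, rfl⟩
  have hlM : 0 ≤ Real.log M := Real.log_nonneg hM1
  have hB0 : 2 ≤ B := by rw [hB]; have := div_nonneg hlM hlog2.le; linarith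
  have hint := hI 40 (4999 / 5000) (10001 / 5000) (1 / 5000) (1 / 1000) B (by norm_num) (by norm_num) (by norm_num)
    (by norm_num) (by norm_num) (by linarith)
  have hmom := hM (4998 / 5000) (10002 / 5000) (1 / 100) (by norm_num) (by norm_num) (by norm_num)
  filter_upwards [hint, hmom, eventually_ge_atTop (2 : ℝ), eventually_ge_atTop (5000 * (H + 1)),
    eventually_ge_atTop (2 * |T₁|)] with T hint hmom hT2 hTH hT1
  intro Z hZ
  have hT0 : 0 < T := by linarith
  obtain ⟨N, a, hN, hNT, ha1, ha, hmo⟩ := hmom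
  obtain ⟨f1, f2, f3, f4, f5⟩ := hF N a hN ha1 ha
  have hNR : (1 : ℝ) ≤ N := by exact_mod_cast hN
  -- the function
  set F : ℂ → ℂ := fun s => 10 * FF N a s with hFdef
  have hFn : ∀ s, ‖F s‖ = 10 * ‖FF N a s‖ := by
    intro s
    rw [hFdef]
    simp
  set g : ℝ → ℝ := fun x => Real.posLog ‖F (1 / 2 + (x : ℂ) * I)‖ with hg
  have hFd : ∀ s : ℂ, 0 < s.re → DifferentiableAt ℂ F s := fun s hs => (f1 s hs).const_mul _
  have hFc : Continuous fun x : ℝ => F (1 / 2 + (x : ℂ) * I) := by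
    rw [continuous_iff_continuousAt]
    intro x
    have h1 : ContinuousAt F (1 / 2 + (x : ℂ) * I) := (hFd _ (by simp)).continuousAt
    exact ContinuousAt.comp (f := fun x : ℝ => (1 / 2 + (x : ℂ) * I : ℂ)) h1 (by fun_prop)
  have hgc : Continuous g := Real.continuous_posLog.comp hFc.norm
  have hg0 : ∀ x, 0 ≤ g x := fun x => Real.posLog_nonneg
  have hgB : ∀ x, g x ≤ B * (Real.log T + Real.log (2 + |x|)) := by
    intro x
    have hx2 : (2 : ℝ) ≤ 2 + |x| := by linarith [abs_nonneg x]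
    have h1 := f2 (1 / 2 + (x : ℂ) * I) (by simp)
    have h2 : ‖(1 / 2 + (x : ℂ) * I : ℂ)‖ + 1 ≤ 2 + |x| := by
      have h3 := norm_add_le (1 / 2 : ℂ) ((x : ℂ) * I)
      have h4 : ‖(1 / 2 : ℂ)‖ = 1 / 2 := by norm_num
      have h5 : ‖(x : ℂ) * I‖ = |x| := by simp
      linarith
    have h3 : ‖F (1 / 2 + (x : ℂ) * I)‖ ≤ M * T * (2 + |x|) ^ 2 := by
      rw [hFn]
      have e1 : (‖(1 / 2 + (x : ℂ) * I : ℂ)‖ + 1) ^ (2 : ℝ) ≤ (2 + |x|) ^ 2 := by
        rw [Real.rpow_two]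
        gcongr
      calc 10 * ‖FF N a (1 / 2 + (x : ℂ) * I)‖ ≤ 10 * (C * N * (‖(1 / 2 + (x : ℂ) * I : ℂ)‖ + 1) ^ (2 : ℝ)) := by
            gcongr
        _ ≤ 10 * (C * T * (2 + |x|) ^ 2) := by gcongr
        _ = 10 * C * T * (2 + |x|) ^ 2 := by ring
        _ ≤ _ := by gcongr
    have h4 : g x ≤ Real.posLog (M * T * (2 + |x|) ^ 2) := posLog_mono (norm_nonneg _) h3
    have h5 : 1 ≤ M * T * (2 + |x|) ^ 2 := by
      have : 1 ≤ M * T := by nlinarith
      have h6 : (1 : ℝ) ≤ (2 + |x|) ^ 2 := by nlinarith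
      nlinarith
    have h6 : Real.posLog (M * T * (2 + |x|) ^ 2) = Real.log (M * T * (2 + |x|) ^ 2) := by
      apply Real.posLog_eq_log
      rw [abs_of_pos (by linarith)]
      exact h5
    rw [h6, Real.log_mul (by positivity) (by positivity), Real.log_mul (by positivity) (by positivity),
      Real.log_pow] at h4
    have h7 : Real.log M ≤ Real.log M / Real.log 2 * Real.log (2 + |x|) := by
      have : Real.log 2 ≤ Real.log (2 + |x|) := Real.log_le_log (by norm_num) hx2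
      rw [div_mul_eq_mul_div, le_div_iff₀ hlog2]
      gcongr
    have h8 : 0 ≤ Real.log T := Real.log_nonneg (by linarith)
    have h9 : 0 ≤ Real.log (2 + |x|) := Real.log_nonneg (by linarith)
    rw [hB]
    push_cast at h4
    have h10 : 0 ≤ Real.log M / Real.log 2 := div_nonneg hlM hlog2.le
    nlinarith
  obtain ⟨i1, i2⟩ := hint g hgc hg0 hgB
  -- the pointwise inequality
  have hgrow : ∀ s : ℂ, 1 / 2 ≤ s.re → ‖F s‖ ≤ Real.exp (Real.log (10 * (C * N))) * (‖s‖ + 1) ^ (2 : ℝ) := by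
    intro s hs
    rw [Real.exp_log (by positivity), hFn]
    have := f2 s hs
    calc 10 * ‖FF N a s‖ ≤ 10 * (C * N * (‖s‖ + 1) ^ (2 : ℝ)) := by gcongr
      _ = _ := by ring
  have hZ' : ∀ ρ ∈ Z, 1 / 2 < ρ.re ∧ F ρ = 0 := by
    intro ρ hρ
    obtain ⟨z1, z2, z3, z4, z5⟩ := hZ ρ hρ
    refine ⟨z2, ?_⟩
    simp only [hFdef]
    rw [f4 ρ z1 z2 z3, mul_zero]
  set Gr : ℂ → ℝ → ℝ := fun ρ t => Real.log (‖1 / 2 + ((40 : ℝ) : ℂ) + t * I - (1 - starRingEnd ℂ ρ)‖ /
    ‖1 / 2 + ((40 : ℝ) : ℂ) + t * I - ρ‖) with hGr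
  have hpt : ∀ t ∈ Set.Icc (4999 / 5000 * T) (10001 / 5000 * T),
      (2.30149 : ℝ) + ∑ ρ ∈ Z, Gr ρ t ≤ (2 * Real.pi)⁻¹ * ∫ θ in (0 : ℝ)..2 * Real.pi, g (t + 40 * ct θ) := by
    intro t ht
    have ht1 : T₁ ≤ t := by
      have := le_abs_self T₁
      linarith [ht.1]
    obtain ⟨g1, g2⟩ := f5 t ht1
    have g3 : F (1 / 2 + ((40 : ℝ) : ℂ) + t * I) ≠ 0 := by
      simp only [hFdef]
      exact mul_ne_zero (by norm_num) g1
    have h1 := hP F _ 2 hFd (by norm_num) hgrow Z hZ' 40 t (by norm_num) g3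
    have h2 : Real.log ‖F (1 / 2 + ((40 : ℝ) : ℂ) + t * I)‖ =
        Real.log 10 + Real.log ‖FF N a (1 / 2 + ((40 : ℝ) : ℂ) + t * I)‖ := by
      rw [hFn, Real.log_mul (by norm_num) (norm_ne_zero_iff.2 g1)]
    have h3 := log10_ge
    rw [h2] at h1
    have h4 : (2.30149 : ℝ) ≤ Real.log 10 + Real.log ‖FF N a (1 / 2 + ((40 : ℝ) : ℂ) + t * I)‖ := by
      have : (2.30249 : ℝ) - 1 / 1000 = 2.30149 := by norm_num
      linarith
    refine le_trans ?_ h1
    simp only [hGr]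
    linarith
  -- integration
  have hle : 4999 / 5000 * T ≤ 10001 / 5000 * T := by nlinarith
  have hGi : ∀ ρ ∈ Z, IntervalIntegrable (Gr ρ) volume (4999 / 5000 * T) (10001 / 5000 * T) ∧
      (2 * Real.pi * 40 / (40 + 1 / 2) - 1 / 1000) * (ρ.re - 1 / 2) ≤
        ∫ t in (4999 / 5000 * T)..(10001 / 5000 * T), Gr ρ t := by
    intro ρ hρ
    obtain ⟨z1, z2, z3, z4, z5⟩ := hZ ρ hρ
    have h1 := hG ρ (4999 / 5000 * T) (10001 / 5000 * T) z2 z3.le (by linarith) (by linarith)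
    exact h1
  have hsumI : IntervalIntegrable (fun t => ∑ ρ ∈ Z, Gr ρ t) volume (4999 / 5000 * T) (10001 / 5000 * T) := by
    have := IntervalIntegrable.sum Z (f := Gr) (μ := volume) (a := 4999 / 5000 * T) (b := 10001 / 5000 * T)
      (fun ρ hρ => (hGi ρ hρ).1)
    have e : (fun t => ∑ ρ ∈ Z, Gr ρ t) = ∑ ρ ∈ Z, Gr ρ := by funext t; simp
    rw [e]
    exact this
  have hmono := intervalIntegral.integral_mono_on hle ((intervalIntegrable_const (c := (2.30149 : ℝ))).add hsumI) i1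
    (fun t ht => hpt t ht)
  have hL : ∫ t in (4999 / 5000 * T)..(10001 / 5000 * T), ((2.30149 : ℝ) + ∑ ρ ∈ Z, Gr ρ t) =
      2.30149 * (5002 / 5000 * T) + ∑ ρ ∈ Z, ∫ t in (4999 / 5000 * T)..(10001 / 5000 * T), Gr ρ t := by
    rw [intervalIntegral.integral_add intervalIntegrable_const hsumI, intervalIntegral.integral_finsetSum
      (fun ρ hρ => (hGi ρ hρ).1), intervalIntegral.integral_const, smul_eq_mul]
    ring
  -- the right side
  have hAB : 4998 / 5000 * T < 10002 / 5000 * T := by nlinarith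
  have hhc : Continuous (hh N a) := by
    unfold hh
    refine Continuous.mul ?_ ?_
    · have : Continuous fun t : ℝ => riemannZeta (1 / 2 + t * I) := by
        rw [continuous_iff_continuousAt]
        intro x
        have h1 : ContinuousAt riemannZeta (1 / 2 + (x : ℂ) * I) := by
          refine (differentiableAt_riemannZeta ?_).continuousAt
          intro h
          have := congrArg Complex.re h
          norm_num at this
        exact ContinuousAt.comp (f := fun x : ℝ => (1 / 2 + (x : ℂ) * I : ℂ)) h1 (by fun_prop)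
      exact this.norm
    · unfold Dp
      refine Continuous.norm ?_
      refine continuous_finsetSum _ fun n hn => ?_
      have hn0 : (n : ℂ) ≠ 0 := by
        have := (Finset.mem_Icc.1 hn).1
        exact_mod_cast (by omega : n ≠ 0)
      exact continuous_const.mul (Continuous.const_cpow (by fun_prop) (Or.inl hn0))
  have hhn : ∀ x, 0 ≤ hh N a x := fun x => mul_nonneg (norm_nonneg _) (norm_nonneg _)
  have hj := hJ (4998 / 5000 * T) (10002 / 5000 * T) (1 / 10) (hh N a) hAB (by norm_num) hhc hhn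
  have hgle : ∫ x in (4998 / 5000 * T)..(10002 / 5000 * T), g x ≤
      ∫ x in (4998 / 5000 * T)..(10002 / 5000 * T), Real.posLog (hh N a x / (1 / 10)) := by
    refine intervalIntegral.integral_mono_on hAB.le (hgc.intervalIntegrable _ _)
      ((Real.continuous_posLog.comp (hhc.div_const _)).intervalIntegrable _ _) (fun x _ => ?_)
    refine posLog_mono (norm_nonneg _) ?_
    rw [hFn]
    have := f3 x
    have e : hh N a x / (1 / 10) = 10 * hh N a x := by ring
    rw [e]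
    linarith
  have hlogle : Real.log (1 + (∫ x in (4998 / 5000 * T)..(10002 / 5000 * T), hh N a x ^ 2) /
      ((1 / 10) ^ 2 * (10002 / 5000 * T - 4998 / 5000 * T))) ≤ 5.697 := by
    refine le_trans ?_ log295_le
    have h0 : 0 ≤ ∫ x in (4998 / 5000 * T)..(10002 / 5000 * T), hh N a x ^ 2 :=
      intervalIntegral.integral_nonneg hAB.le fun x _ => by positivity
    have hden : 0 < (1 / 10) ^ 2 * (10002 / 5000 * T - 4998 / 5000 * T) := by
      apply mul_pos (by norm_num); linarith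
    refine Real.log_le_log (by positivity) ?_
    have : (∫ x in (4998 / 5000 * T)..(10002 / 5000 * T), hh N a x ^ 2) /
      ((1 / 10) ^ 2 * (10002 / 5000 * T - 4998 / 5000 * T)) ≤ (41 / 14 + 1 / 100) * 100 := by
      rw [div_le_iff₀ hden]
      have := hmo
      nlinarith
    linarith
  have hS : (∑ ρ ∈ Z, (ρ.re - 1 / 2)) * (2 * Real.pi * 40 / (40 + 1 / 2) - 1 / 1000) ≤
      ∑ ρ ∈ Z, ∫ t in (4999 / 5000 * T)..(10001 / 5000 * T), Gr ρ t := by
    rw [Finset.sum_mul]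
    refine Finset.sum_le_sum fun ρ hρ => ?_
    have := (hGi ρ hρ).2
    linarith
  have hpi := Real.pi_gt_d2
  have hSn : 0 ≤ ∑ ρ ∈ Z, (ρ.re - 1 / 2) := Finset.sum_nonneg fun ρ hρ => by
    have := (hZ ρ hρ).2.1
    linarith
  have hco : (6.2 : ℝ) ≤ 2 * Real.pi * 40 / (40 + 1 / 2) - 1 / 1000 := by
    rw [le_sub_iff_add_le, le_div_iff₀ (by norm_num)]
    nlinarith
  have e1 : ((4999 / 5000 - 1 / 5000) * T : ℝ) = 4998 / 5000 * T := by ring
  have e2 : ((10001 / 5000 + 1 / 5000) * T : ℝ) = 10002 / 5000 * T := by ring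
  rw [e1, e2] at i2
  have key : (∑ ρ ∈ Z, (ρ.re - 1 / 2)) * 6.2 ≤ 0.5495 * T := by
    have h1 : (∑ ρ ∈ Z, (ρ.re - 1 / 2)) * 6.2 ≤
        (∑ ρ ∈ Z, (ρ.re - 1 / 2)) * (2 * Real.pi * 40 / (40 + 1 / 2) - 1 / 1000) := by gcongr
    have h2 : (10002 / 5000 * T - 4998 / 5000 * T) / 2 * Real.log (1 + (∫ x in (4998 / 5000 * T)..(10002 / 5000 * T), hh N a x ^ 2) /
      ((1 / 10) ^ 2 * (10002 / 5000 * T - 4998 / 5000 * T))) ≤ (10002 / 5000 * T - 4998 / 5000 * T) / 2 * 5.697 := by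
      refine mul_le_mul_of_nonneg_left hlogle ?_
      linarith
    rw [hL] at hmono
    linarith
  rw [← Finset.mul_sum]
  linarith

end Pool.Agent.Helper75.PM
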